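import Mathlib

/-!
# Lowering maps on polynomials of bounded degree

Definitions for the problem on nonzero lowering maps.
-/

namespace Q238.LM

open Polynomial Finset

variable {K : Type*} [Field K]

/-- `tau θ i = (λ - θ_0)(λ - θ_1) ⋯ (λ - θ_{i-1})`. -/
noncomputable def tau (θ : ℕ → K) (i : ℕ) : K[X] := ∏ h ∈ range i, (X - C (θ h))

/-- `rho θ d i = (λ - θ_d)(λ - θ_{d-1}) ⋯ (λ - θ_{d-i+1})`. -/
noncomputable def rho (θ : ℕ → K) (d i : ℕ) : K[X] := ∏ h ∈ range i, (X - C (θ (d - h)))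

theorem tau_monic (θ : ℕ → K) (i : ℕ) : (tau θ i).Monic :=
  monic_prod_of_monic _ _ fun _ _ => monic_X_sub_C _

theorem rho_monic (θ : ℕ → K) (d i : ℕ) : (rho θ d i).Monic :=
  monic_prod_of_monic _ _ fun _ _ => monic_X_sub_C _

theorem tau_natDegree (θ : ℕ → K) (i : ℕ) : (tau θ i).natDegree = i := by
  rw [tau, natDegree_prod_of_monic _ _ fun _ _ => monic_X_sub_C _]
  simp

theorem rho_natDegree (θ : ℕ → K) (d i : ℕ) : (rho θ d i).natDegree = i := by
  rw [rho, natDegree_prod_of_monic _ _ fun _ _ => monic_X_sub_C _]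
  simp

theorem tau_degree (θ : ℕ → K) (i : ℕ) : (tau θ i).degree = i := by
  rw [degree_eq_natDegree (tau_monic θ i).ne_zero, tau_natDegree]

theorem rho_degree (θ : ℕ → K) (d i : ℕ) : (rho θ d i).degree = i := by
  rw [degree_eq_natDegree (rho_monic θ d i).ne_zero, rho_natDegree]

/-- `tau θ i` lies in `V`, the space of polynomials of degree at most `d`, when `i ≤ d`. -/
theorem tau_mem (θ : ℕ → K) {d i : ℕ} (h : i ≤ d) : tau θ i ∈ degreeLE K (d : WithBot ℕ) := by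
  rw [mem_degreeLE, tau_degree]
  exact_mod_cast h

/-- `rho θ d i` lies in `V`, the space of polynomials of degree at most `d`, when `i ≤ d`. -/
theorem rho_mem (θ : ℕ → K) {d i : ℕ} (h : i ≤ d) : rho θ d i ∈ degreeLE K (d : WithBot ℕ) := by
  rw [mem_degreeLE, rho_degree]
  exact_mod_cast h

/-- `tau θ i` as an element of `V`, the space of polynomials of degree at most `d`. -/
noncomputable def tauV (θ : ℕ → K) (d i : ℕ) (h : i ≤ d) : degreeLE K (d : WithBot ℕ) :=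
  ⟨tau θ i, tau_mem θ h⟩

/-- `rho θ d i` as an element of `V`, the space of polynomials of degree at most `d`. -/
noncomputable def rhoV (θ : ℕ → K) (d i : ℕ) (h : i ≤ d) : degreeLE K (d : WithBot ℕ) :=
  ⟨rho θ d i, rho_mem θ h⟩

/-- `Ψ` is a lowering map on `V`, the space of polynomials of degree at most `d`: it kills
`τ_0` and `ρ_0` and, for `1 ≤ i ≤ d`, sends `τ_i` into the span of `τ_{i-1}` and `ρ_i` into the
span of `ρ_{i-1}` (here `i = k + 1`). -/
structure IsLowering (θ : ℕ → K) (d : ℕ)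
    (Ψ : degreeLE K (d : WithBot ℕ) →ₗ[K] degreeLE K (d : WithBot ℕ)) : Prop where
  tau_zero : Ψ (tauV θ d 0 (Nat.zero_le d)) = 0
  rho_zero : Ψ (rhoV θ d 0 (Nat.zero_le d)) = 0
  tau_succ : ∀ (k : ℕ) (h : k + 1 ≤ d),
    Ψ (tauV θ d (k + 1) h) ∈ Submodule.span K {tauV θ d k (Nat.le_of_succ_le h)}
  rho_succ : ∀ (k : ℕ) (h : k + 1 ≤ d),
    Ψ (rhoV θ d (k + 1) h) ∈ Submodule.span K {rhoV θ d k (Nat.le_of_succ_le h)}

/-- Condition (*): the ratio `(θ_{i-2} - θ_{i+1}) (θ_{i-1} - θ_i)⁻¹` takes the same value for all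
`i` with `2 ≤ i ≤ d - 1` (here `i = k + 2`, so `k + 3 ≤ d`). -/
def StarCond (θ : ℕ → K) (d : ℕ) : Prop :=
  ∃ t : K, ∀ k : ℕ, k + 3 ≤ d → (θ k - θ (k + 3)) * (θ (k + 1) - θ (k + 2))⁻¹ = t

end Q238.LM
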