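import Pool.Agent.Q238.LM.Defs

namespace Q238.LM

open Polynomial Finset

variable {K : Type*} [Field K]

/-- Step 1: the three term recurrence. -/
theorem exists_rec (θ : ℕ → K) (d : ℕ) (hinj : ∀ i j, i ≤ d → j ≤ d → θ i = θ j → i = j)
    (hs : StarCond θ d) :
    ∃ β γ : K, ∀ i, i + 2 ≤ d → θ (i + 2) = β * θ (i + 1) - θ i + γ := by
  obtain ⟨t, ht⟩ := hs
  refine ⟨t - 1, θ 2 - (t - 1) * θ 1 + θ 0, ?_⟩
  intro i
  induction i with
  | zero => intro _; simp
  | succ i ih =>
    intro hi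
    have h1 := ih (by omega)
    have h2 := ht i (by omega)
    have hne : θ (i + 1) - θ (i + 2) ≠ 0 := by
      intro h0
      have := hinj (i + 1) (i + 2) (by omega) (by omega) (sub_eq_zero.mp h0)
      omega
    rw [← div_eq_mul_inv, div_eq_iff hne] at h2
    have e3 : i + 1 + 2 = i + 3 := by ring
    have e2 : i + 1 + 1 = i + 2 := by ring
    rw [e3, e2]
    linear_combination h1 - h2

/-- Two antisymmetric solutions of the homogeneous recurrence are proportional. -/
theorem casorati (β : K) (N : ℕ) (X Y : ℕ → K)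
    (hX : ∀ j, j + 2 ≤ N → X (j + 2) = β * X (j + 1) - X j)
    (hY : ∀ j, j + 2 ≤ N → Y (j + 2) = β * Y (j + 1) - Y j)
    (aX : ∀ j, j ≤ N → X (N - j) = - X j) (aY : ∀ j, j ≤ N → Y (N - j) = - Y j)
    (mX : ∀ m, N = 2 * m → X m = 0) (mY : ∀ m, N = 2 * m → Y m = 0) :
    ∀ j, j ≤ N → X j * Y 0 = X 0 * Y j := by
  have hC : ∀ j, j + 1 ≤ N → X j * Y (j + 1) - X (j + 1) * Y j = X 0 * Y 1 - X 1 * Y 0 := by
    intro j
    induction j with
    | zero => intro _; simp
    | succ j ih =>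
      intro hj
      have h := ih (by omega)
      have e : j + 1 + 1 = j + 2 := rfl
      rw [e, hX j (by omega), hY j (by omega)]
      linear_combination h
  rcases Nat.eq_zero_or_pos N with h0 | hpos
  · intro j hj
    have : j = 0 := by omega
    subst this
    rfl
  have hC0 : X 0 * Y 1 - X 1 * Y 0 = 0 := by
    rcases Nat.even_or_odd' N with ⟨m, hm | hm⟩
    · rw [← hC m (by omega), mX m hm, mY m hm]; ring
    · have h1 := aX m (by omega)
      have h2 := aY m (by omega)
      have e : N - m = m + 1 := by omega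
      rw [e] at h1 h2
      rw [← hC m (by omega), h1, h2]; ring
  have key : ∀ j, (j ≤ N → X j * Y 0 = X 0 * Y j) ∧
      (j + 1 ≤ N → X (j + 1) * Y 0 = X 0 * Y (j + 1)) := by
    intro j
    induction j with
    | zero =>
      refine ⟨fun _ => rfl, fun _ => ?_⟩
      simp only [zero_add]
      linear_combination -hC0
    | succ j ih =>
      refine ⟨ih.2, fun hj => ?_⟩
      have e : j + 1 + 1 = j + 2 := rfl
      have h1 := ih.1 (by omega)
      have h2 := ih.2 (by omega)
      rw [e, hX j (by omega), hY j (by omega)]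
      linear_combination β * h2 - h1
  exact fun j => (key j).1

/-- `u_h = θ_h - θ_{d-h}`. -/
def u (θ : ℕ → K) (d h : ℕ) : K := θ h - θ (d - h)

/-- `ϑ_i = ∑_{h<i} u_h`. -/
def vt (θ : ℕ → K) (d i : ℕ) : K := ∑ h ∈ range i, u θ d h

/-- `κ_n = ϑ_n / (θ_0 - θ_{d-n+1})`. -/
def kap (θ : ℕ → K) (d n : ℕ) : K := vt θ d n / (θ 0 - θ (d - n + 1))

theorem kap_zero (θ : ℕ → K) (d : ℕ) : kap θ d 0 = 0 := by
  simp [kap, vt]

theorem vt_add (θ : ℕ → K) (d j n : ℕ) :
    vt θ d (j + n) - vt θ d j = ∑ h ∈ range n, u θ d (j + h) := by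
  rw [vt, vt, Finset.sum_range_add]
  ring

theorem sprime_aux (θ : ℕ → K) (d : ℕ) (hinj : ∀ i j, i ≤ d → j ≤ d → θ i = θ j → i = j)
    (β γ : K) (hr : ∀ i, i + 2 ≤ d → θ (i + 2) = β * θ (i + 1) - θ i + γ)
    (n j : ℕ) (hn : 1 ≤ n) (hnd : n ≤ d) (hj : j + n ≤ d) :
    vt θ d (j + n) - vt θ d j = kap θ d n * (θ j - θ (d - (j + n) + 1)) := by
  obtain ⟨N, hN⟩ : ∃ N, N + n = d + 1 := ⟨d + 1 - n, by omega⟩
  have hu : ∀ h, h + 2 ≤ d → u θ d (h + 2) = β * u θ d (h + 1) - u θ d h := by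
    intro h hh
    have h1 := hr h hh
    have h2 := hr (d - (h + 2)) (by omega)
    have e1 : d - (h + 2) + 2 = d - h := by omega
    have e2 : d - (h + 2) + 1 = d - (h + 1) := by omega
    rw [e1, e2] at h2
    unfold u
    linear_combination h1 - h2
  have hua : ∀ h, h ≤ d → u θ d (d - h) = - u θ d h := by
    intro h hh
    unfold u
    have : d - (d - h) = h := by omega
    rw [this]; ring
  have key := casorati β N (fun j => ∑ h ∈ range n, u θ d (j + h)) (fun j => θ j - θ (N - j))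
    ?_ ?_ ?_ ?_ ?_ ?_ j (by omega)
  · have hR0 : θ 0 - θ N ≠ 0 := by
      intro h0
      have := hinj 0 N (by omega) (by omega) (sub_eq_zero.mp h0)
      omega
    simp only [Nat.sub_zero] at key
    have e1 : d - n + 1 = N := by omega
    have e2 : d - (j + n) + 1 = N - j := by omega
    rw [vt_add, kap, e1, e2, div_mul_eq_mul_div, eq_div_iff hR0, key]
    congr 1
    have := vt_add θ d 0 n
    rw [← this]
    simp [vt]
  · intro j hj
    rw [Finset.mul_sum, ← Finset.sum_sub_distrib]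
    apply Finset.sum_congr rfl
    intro h hh
    rw [Finset.mem_range] at hh
    have := hu (j + h) (by omega)
    have e1 : j + 2 + h = j + h + 2 := by ring
    have e2 : j + 1 + h = j + h + 1 := by ring
    rw [e1, e2, this]
  · intro j hj
    have h1 := hr j (by omega)
    have h2 := hr (N - (j + 2)) (by omega)
    have e1 : N - (j + 2) + 2 = N - j := by omega
    have e2 : N - (j + 2) + 1 = N - (j + 1) := by omega
    rw [e1, e2] at h2
    linear_combination h1 - h2
  · intro j hj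
    rw [← Finset.sum_range_reflect, ← Finset.sum_neg_distrib]
    apply Finset.sum_congr rfl
    intro h hh
    rw [Finset.mem_range] at hh
    rw [← hua (j + h) (by omega)]
    congr 1
    omega
  · intro j hj
    have : N - (N - j) = j := by omega
    rw [this]; ring
  · intro m hm
    simp only [u]
    rw [Finset.sum_sub_distrib, sub_eq_zero, ← Finset.sum_range_reflect]
    apply Finset.sum_congr rfl
    intro h hh
    rw [Finset.mem_range] at hh
    congr 1
    omega
  · intro m hm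
    have : N - m = m := by omega
    rw [this]; ring

theorem sprime (θ : ℕ → K) (d : ℕ) (hinj : ∀ i j, i ≤ d → j ≤ d → θ i = θ j → i = j)
    (β γ : K) (hr : ∀ i, i + 2 ≤ d → θ (i + 2) = β * θ (i + 1) - θ i + γ)
    (n j : ℕ) (hj : j + n ≤ d) :
    vt θ d (j + n) - vt θ d j = kap θ d n * (θ j - θ (d - (j + n) + 1)) := by
  rcases Nat.eq_zero_or_pos n with h0 | hpos
  · subst h0
    simp [kap_zero]
  · exact sprime_aux θ d hinj β γ hr n j hpos (by omega) hj

/-- Coefficients of `ρ_i` in the basis `τ_j`. -/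
def cf (θ : ℕ → K) (d : ℕ) : ℕ → ℕ → K
  | 0, 0 => 1
  | 0, (_ + 1) => 0
  | (i + 1), 0 => (θ 0 - θ (d - i)) * cf θ d i 0
  | (i + 1), (j + 1) => cf θ d i j + (θ (j + 1) - θ (d - i)) * cf θ d i (j + 1)

theorem cf_eq_zero (θ : ℕ → K) (d : ℕ) : ∀ i j, i < j → cf θ d i j = 0 := by
  intro i
  induction i with
  | zero =>
    intro j hj
    obtain ⟨k, rfl⟩ : ∃ k, j = k + 1 := ⟨j - 1, by omega⟩
    simp [cf]
  | succ i ih =>
    intro j hj
    obtain ⟨k, rfl⟩ : ∃ k, j = k + 1 := ⟨j - 1, by omega⟩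
    rw [cf, ih k (by omega), ih (k + 1) (by omega)]
    ring

theorem tau_succ (θ : ℕ → K) (i : ℕ) : tau θ (i + 1) = tau θ i * (X - C (θ i)) := by
  rw [tau, tau, Finset.prod_range_succ]

theorem rho_succ (θ : ℕ → K) (d i : ℕ) :
    rho θ d (i + 1) = rho θ d i * (X - C (θ (d - i))) := by
  rw [rho, rho, Finset.prod_range_succ]

theorem rho_eq (θ : ℕ → K) (d : ℕ) : ∀ i, ∀ M, i + 1 ≤ M →
    rho θ d i = ∑ j ∈ range M, cf θ d i j • tau θ j := by
  intro i
  induction i with
  | zero =>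
    intro M hM
    obtain ⟨k, rfl⟩ : ∃ k, M = k + 1 := ⟨M - 1, by omega⟩
    rw [Finset.sum_range_succ']
    simp [rho, tau, cf]
  | succ i ih =>
    intro M hM
    obtain ⟨k, rfl⟩ : ∃ k, M = k + 1 := ⟨M - 1, by omega⟩
    rw [rho_succ, ih (k + 1) (by omega), Finset.sum_mul, Finset.sum_range_succ' (fun j => cf θ d (i + 1) j • tau θ j)]
    have hstep : ∀ j, cf θ d i j • tau θ j * (X - C (θ (d - i)))
        = cf θ d i j • tau θ (j + 1) + ((θ j - θ (d - i)) * cf θ d i j) • tau θ j := by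
      intro j
      rw [tau_succ]
      simp only [smul_eq_C_mul, C_mul, C_sub]
      ring
    rw [Finset.sum_congr rfl fun j _ => hstep j, Finset.sum_add_distrib,
      Finset.sum_range_succ (fun j => cf θ d i j • tau θ (j + 1)),
      Finset.sum_range_succ' (fun j => ((θ j - θ (d - i)) * cf θ d i j) • tau θ j),
      cf_eq_zero θ d i k (by omega), zero_smul, add_zero, ← add_assoc, ← Finset.sum_add_distrib]
    congr 1
    apply Finset.sum_congr rfl
    intro j _
    rw [cf, add_smul]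

theorem joint (θ : ℕ → K) (d : ℕ) (hinj : ∀ i j, i ≤ d → j ≤ d → θ i = θ j → i = j)
    (β γ : K) (hr : ∀ i, i + 2 ≤ d → θ (i + 2) = β * θ (i + 1) - θ i + γ) :
    ∀ i, i + 1 ≤ d →
      (∀ j, j ≤ i → vt θ d (j + 1) * cf θ d (i + 1) (j + 1) = vt θ d (i + 1) * cf θ d i j) ∧
      (∀ j, j ≤ i + 1 → kap θ d (i + 1 - j) * cf θ d (i + 1) j = vt θ d (i + 1) * cf θ d i j) := by
  have S := sprime θ d hinj β γ hr
  intro i
  induction i with
  | zero =>
    intro hd
    have hS := S 1 0 (by omega)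
    have e1 : d - (0 + 1) + 1 = d := by omega
    rw [e1, zero_add] at hS
    have e2 : vt θ d 0 = 0 := by simp [vt]
    rw [e2, sub_zero] at hS
    refine ⟨?_, ?_⟩
    · intro j hj
      have : j = 0 := by omega
      subst this
      simp [cf]
    · intro j hj
      rcases (by omega : j = 0 ∨ j = 1) with rfl | rfl
      · simp only [zero_add, Nat.sub_zero, cf, mul_one]
        exact hS.symm
      · simp [cf, kap_zero]
  | succ i ih =>
    intro hd
    obtain ⟨P, Q⟩ := ih (by omega)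
    have e2 : vt θ d 0 = 0 := by simp [vt]
    refine ⟨?_, ?_⟩
    · intro j hj
      have hS := S (i + 1 - j) (j + 1) (by omega)
      have e1 : j + 1 + (i + 1 - j) = i + 1 + 1 := by omega
      have e3 : d - (i + 1 + 1) + 1 = d - (i + 1) := by omega
      rw [e1, e3] at hS
      have hQ := Q j hj
      by_cases hji : j ≤ i
      · have hP := P j hji
        rw [show cf θ d (i + 1 + 1) (j + 1) = cf θ d (i + 1) j
          + (θ (j + 1) - θ (d - (i + 1))) * cf θ d (i + 1) (j + 1) from rfl]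
        linear_combination (θ (j + 1) - θ (d - (i + 1))) * hP - (θ (j + 1) - θ (d - (i + 1))) * hQ
          - cf θ d (i + 1) j * hS
      · have hj1 : j = i + 1 := by omega
        subst hj1
        rw [show cf θ d (i + 1 + 1) (i + 1 + 1) = cf θ d (i + 1) (i + 1)
          + (θ (i + 1 + 1) - θ (d - (i + 1))) * cf θ d (i + 1) (i + 1 + 1) from rfl,
          cf_eq_zero θ d (i + 1) (i + 1 + 1) (by omega)]
        ring
    · intro j hj
      rcases Nat.eq_zero_or_pos j with h0 | hpos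
      · subst h0
        have hS := S (i + 1 + 1) 0 (by omega)
        have e3 : d - (0 + (i + 1 + 1)) + 1 = d - (i + 1) := by omega
        rw [e3, zero_add, e2] at hS
        rw [show cf θ d (i + 1 + 1) 0 = (θ 0 - θ (d - (i + 1))) * cf θ d (i + 1) 0 from rfl]
        simp only [Nat.sub_zero]
        linear_combination -cf θ d (i + 1) 0 * hS
      · obtain ⟨k, rfl⟩ : ∃ k, j = k + 1 := ⟨j - 1, by omega⟩
        have hS := S (i + 1 - k) (k + 1) (by omega)
        have e1 : k + 1 + (i + 1 - k) = i + 1 + 1 := by omega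
        have e3 : d - (i + 1 + 1) + 1 = d - (i + 1) := by omega
        have e4 : i + 1 + 1 - (k + 1) = i + 1 - k := by omega
        rw [e1, e3] at hS
        rw [e4]
        have hQ := Q k (by omega)
        by_cases hki : k ≤ i
        · have hP := P k hki
          rw [show cf θ d (i + 1 + 1) (k + 1) = cf θ d (i + 1) k
            + (θ (k + 1) - θ (d - (i + 1))) * cf θ d (i + 1) (k + 1) from rfl]
          linear_combination hQ - hP - cf θ d (i + 1) (k + 1) * hS
        · have hk1 : k = i + 1 := by omega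
          subst hk1
          rw [cf_eq_zero θ d (i + 1) (i + 1 + 1) (by omega)]
          simp [kap_zero]

theorem rho_cf_shift (θ : ℕ → K) (d : ℕ) (hinj : ∀ i j, i ≤ d → j ≤ d → θ i = θ j → i = j)
    (β γ : K) (hr : ∀ i, i + 2 ≤ d → θ (i + 2) = β * θ (i + 1) - θ i + γ) (i : ℕ)
    (hi : i + 1 ≤ d) :
    ∑ j ∈ range (i + 1), (vt θ d (j + 1) * cf θ d (i + 1) (j + 1)) • tau θ j
      = vt θ d (i + 1) • rho θ d i := by
  rw [rho_eq θ d i (i + 1) le_rfl, Finset.smul_sum]
  apply Finset.sum_congr rfl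
  intro j hj
  rw [Finset.mem_range] at hj
  rw [smul_smul, (joint θ d hinj β γ hr i hi).1 j (by omega)]

/-- The polynomials `τ_i` as a polynomial sequence. -/
noncomputable def tauSeq (θ : ℕ → K) : Polynomial.Sequence K where
  elems' := tau θ
  degree_eq' := tau_degree θ

theorem tauSeq_apply (θ : ℕ → K) (i : ℕ) : tauSeq θ i = tau θ i := rfl

theorem tauSeq_unit (θ : ℕ → K) (i : ℕ) : IsUnit (tauSeq θ i).leadingCoeff := by
  rw [tauSeq_apply, (tau_monic θ i).leadingCoeff]
  exact isUnit_one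

/-- The image of `τ_i`. -/
noncomputable def img (θ : ℕ → K) (d i : ℕ) : K[X] :=
  if i ≤ d then vt θ d i • tau θ (i - 1) else 0

/-- The linear map on all polynomials. -/
noncomputable def Phi (θ : ℕ → K) (d : ℕ) : K[X] →ₗ[K] K[X] :=
  ((tauSeq θ).basis (tauSeq_unit θ)).constr K (img θ d)

theorem Phi_tau (θ : ℕ → K) (d i : ℕ) : Phi θ d (tau θ i) = img θ d i := by
  have h := ((tauSeq θ).basis (tauSeq_unit θ)).constr_basis K (img θ d) i
  rw [Polynomial.Sequence.basis_eq_self] at h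
  exact h

theorem img_mem (θ : ℕ → K) (d i : ℕ) : img θ d i ∈ degreeLE K (d : WithBot ℕ) := by
  unfold img
  split_ifs with h
  · exact Submodule.smul_mem _ _ (tau_mem θ (by omega))
  · exact Submodule.zero_mem _

theorem Phi_mem (θ : ℕ → K) (d : ℕ) (p : K[X]) : Phi θ d p ∈ degreeLE K (d : WithBot ℕ) := by
  have h : LinearMap.range (Phi θ d) ≤ degreeLE K (d : WithBot ℕ) := by
    rw [Phi, Module.Basis.constr_range, Submodule.span_le]
    rintro _ ⟨i, rfl⟩
    exact img_mem θ d i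
  exact h ⟨p, rfl⟩

/-- The linear map on `V`. -/
noncomputable def Psi (θ : ℕ → K) (d : ℕ) :
    degreeLE K (d : WithBot ℕ) →ₗ[K] degreeLE K (d : WithBot ℕ) :=
  ((Phi θ d).codRestrict (degreeLE K (d : WithBot ℕ)) (Phi_mem θ d)).comp
    (degreeLE K (d : WithBot ℕ)).subtype

theorem Psi_coe (θ : ℕ → K) (d : ℕ) (v : degreeLE K (d : WithBot ℕ)) :
    ((Psi θ d v : degreeLE K (d : WithBot ℕ)) : K[X]) = Phi θ d (v : K[X]) := rfl

theorem Psi_tau_zero (θ : ℕ → K) (d : ℕ) : Phi θ d (tau θ 0) = 0 := by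
  rw [Phi_tau]
  simp [img, vt]

theorem Psi_tau_succ (θ : ℕ → K) (d k : ℕ) (h : k + 1 ≤ d) :
    Phi θ d (tau θ (k + 1)) = vt θ d (k + 1) • tau θ k := by
  rw [Phi_tau, img, if_pos h, Nat.add_sub_cancel]

theorem Psi_rho_succ (θ : ℕ → K) (d : ℕ) (hinj : ∀ i j, i ≤ d → j ≤ d → θ i = θ j → i = j)
    (β γ : K) (hr : ∀ i, i + 2 ≤ d → θ (i + 2) = β * θ (i + 1) - θ i + γ) (k : ℕ)
    (hk : k + 1 ≤ d) :
    Phi θ d (rho θ d (k + 1)) = vt θ d (k + 1) • rho θ d k := by
  rw [rho_eq θ d (k + 1) (k + 1 + 1) le_rfl, map_sum, Finset.sum_range_succ', map_smul,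
    Psi_tau_zero, smul_zero, add_zero, ← rho_cf_shift θ d hinj β γ hr k hk]
  apply Finset.sum_congr rfl
  intro j hj
  rw [Finset.mem_range] at hj
  rw [map_smul, Psi_tau_succ θ d j (by omega), smul_smul, mul_comm]

theorem exists_lowering (θ : ℕ → K) (d : ℕ) (hd : 1 ≤ d)
    (hinj : ∀ i j, i ≤ d → j ≤ d → θ i = θ j → i = j) (hs : StarCond θ d) :
    ∃ Ψ : degreeLE K (d : WithBot ℕ) →ₗ[K] degreeLE K (d : WithBot ℕ),
      IsLowering θ d Ψ ∧ Ψ ≠ 0 := by
  obtain ⟨β, γ, hr⟩ := exists_rec θ d hinj hs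
  refine ⟨Psi θ d, ⟨?_, ?_, ?_, ?_⟩, ?_⟩
  · apply Subtype.ext
    rw [Psi_coe]
    exact Psi_tau_zero θ d
  · apply Subtype.ext
    rw [Psi_coe]
    have : rho θ d 0 = tau θ 0 := by simp [rho, tau]
    change Phi θ d (rho θ d 0) = _
    rw [this]
    exact Psi_tau_zero θ d
  · intro k h
    rw [Submodule.mem_span_singleton]
    refine ⟨vt θ d (k + 1), ?_⟩
    apply Subtype.ext
    rw [Psi_coe]
    exact (Psi_tau_succ θ d k h).symm
  · intro k h
    rw [Submodule.mem_span_singleton]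
    refine ⟨vt θ d (k + 1), ?_⟩
    apply Subtype.ext
    rw [Psi_coe]
    exact (Psi_rho_succ θ d hinj β γ hr k h).symm
  · intro h0
    have h1 : (Psi θ d (tauV θ d 1 hd) : K[X]) = 0 := by
      rw [h0]; rfl
    rw [Psi_coe] at h1
    change Phi θ d (tau θ (0 + 1)) = 0 at h1
    rw [Psi_tau_succ θ d 0 (by omega)] at h1
    rw [smul_eq_zero] at h1
    rcases h1 with h1 | h1
    · simp only [vt, zero_add, Finset.sum_range_one, u, Nat.sub_zero] at h1
      have := hinj 0 d (by omega) le_rfl (sub_eq_zero.mp h1)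
      omega
    · exact (tau_monic θ 0).ne_zero h1

end Q238.LM
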